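import Pool.Agent.Helper67.BEA.Ess

/-!
The converse: a template which pp-constructs `K_3` has a bounded selection.
-/

set_option autoImplicit false

namespace Pool.Agent.Helper67.BEA

open Set Function Pool.Agent.W994.AR Pool.Agent.Q112.BP

theorem avoid2 (a b : Fin 3) : ∃ c : Fin 3, c ≠ a ∧ c ≠ b := by
  revert a b
  decide

theorem third {a b c p : Fin 3} (hab : a ≠ b) (hca : c ≠ a) (hcb : c ≠ b) (hpa : p ≠ a)
    (hpb : p ≠ b) : p = c := by
  revert a b c p
  decide

/-- polymorphisms of the triangle with an essential variable `i`: one value is taken only on one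
hyperplane, and on a large part of it -/
theorem k3_ess {κ : Type} {F : (κ → Fin 3) → Fin 3}
    (hF : ∀ x y : κ → Fin 3, (∀ k, x k ≠ y k) → F x ≠ F y) {i : κ} (hi : i ∈ ess F) :
    ∃ (r c : Fin 3) (x : κ → Fin 3), (∀ w, F w = r → w i = c) ∧
      ∀ z, z i = c → (∀ k, k ≠ i → z k ≠ x k) → F z = r := by
  classical
  obtain ⟨x, y, hxy, hne⟩ := hi
  have hi' : x i ≠ y i := by
    intro h
    apply hne
    congr 1
    funext j
    by_cases hj : j = i
    · rw [hj, h]
    · exact hxy j hj
  obtain ⟨r, hr1, hr2⟩ := avoid2 (F x) (F y)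
  obtain ⟨c, hc1, hc2⟩ := avoid2 (x i) (y i)
  have hZ : ∀ z, z i = c → (∀ k, k ≠ i → z k ≠ x k) → F z = r := by
    intro z hzi hz
    refine third hne hr1 hr2 (hF z x ?_) (hF z y ?_)
    · intro k
      by_cases hk : k = i
      · rw [hk, hzi]
        exact hc1
      · exact hz k hk
    · intro k
      by_cases hk : k = i
      · rw [hk, hzi]
        exact hc2
      · rw [← hxy k hk]
        exact hz k hk
  refine ⟨r, c, x, ?_, hZ⟩
  intro w hw
  by_contra hwi
  choose z hz1 hz2 using fun k => avoid2 (x k) (w k)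
  have h1 : F (update z i c) = r := by
    apply hZ
    · simp
    · intro k hk
      rw [update_of_ne hk]
      exact hz1 k
  apply hF (update z i c) w _ (h1.trans hw.symm)
  intro k
  by_cases hk : k = i
  · subst hk
    rw [update_self]
    exact Ne.symm hwi
  · rw [update_of_ne hk]
    exact hz2 k

/-- polymorphisms of the triangle have at most one essential variable -/
theorem k3_unary {κ : Type} {F : (κ → Fin 3) → Fin 3}
    (hF : ∀ x y : κ → Fin 3, (∀ k, x k ≠ y k) → F x ≠ F y) {i j : κ} (hi : i ∈ ess F)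
    (hj : j ∈ ess F) : i = j := by
  classical
  by_contra hij
  obtain ⟨r, c, x, h1, h2⟩ := k3_ess hF hi
  obtain ⟨r', c', x', h1', h2'⟩ := k3_ess hF hj
  by_cases hr : r = r'
  · subst hr
    -- a point of the hyperplane of `i` outside the hyperplane of `j`
    choose z hz1 hz2 using fun k => avoid2 (x k) c'
    have h3 : F (update z i c) = r := by
      apply h2
      · simp
      · intro k hk
        rw [update_of_ne hk]
        exact hz1 k
    have h4 := h1' _ h3
    rw [update_of_ne (Ne.symm hij)] at h4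
    exact hz2 j h4
  · obtain ⟨s, hs1, hs2⟩ := avoid2 r r'
    obtain ⟨a, ha, -⟩ := avoid2 c c
    obtain ⟨a', ha', -⟩ := avoid2 c' c'
    obtain ⟨b, hb1, hb2⟩ := avoid2 a c
    obtain ⟨b', hb1', hb2'⟩ := avoid2 a' c'
    have hval : ∀ w : κ → Fin 3, w i ≠ c → w j ≠ c' → F w = s := by
      intro w hwi hwj
      refine third (a := r) (b := r') hr hs1 hs2 ?_ ?_
      · intro h
        exact hwi (h1 w h)
      · intro h
        exact hwj (h1' w h)
    apply hF (fun k => if k = i then a else if k = j then a' else 0)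
      (fun k => if k = i then b else if k = j then b' else 1)
    · intro k
      by_cases hk : k = i
      · simp only [hk, if_true]
        exact Ne.symm hb1
      · by_cases hk' : k = j
        · simp only [hk', if_true, if_neg (Ne.symm hij)]
          exact Ne.symm hb1'
        · simp only [hk, hk', if_false]
          decide
    · rw [hval _ (by simpa using ha) (by simpa [Ne.symm hij] using ha'),
        hval _ (by simpa using hb2) (by simpa [Ne.symm hij] using hb2')]

variable {A ι : Type} {ar : ι → ℕ} {𝔸 : Str ι ar A}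

/-- a template which pp-constructs `K_3` has a selection of single variables -/
theorem selection_of_k3 (h : PPConstructsK3 𝔸) :
    ∃ (S : Set A) (E : ∀ {κ : Type}, ((κ → A) → A) → Set κ), S.Finite ∧ S.Nonempty ∧
      Selection 𝔸 S 1 @E := by
  classical
  obtain ⟨n, R, hn, hR, ⟨φ, hφ⟩, ⟨ψ, hψ⟩⟩ := h
  let G : ∀ {κ : Type}, ((κ → A) → A) → (κ → Fin 3) → Fin 3 :=
    fun {κ} f x => ψ (fun j => f (fun k => φ (x k) j))
  have hG : ∀ {κ : Type} (f : (κ → A) → A), PolA 𝔸 f → ∀ x y : κ → Fin 3, (∀ k, x k ≠ y k) →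
      G f x ≠ G f y := by
    intro κ f hf x y hxy
    apply hψ
    have h1 := PolA.preserves hf hR (fun k => Sum.elim (φ (x k)) (φ (y k)))
      (fun k => hφ _ _ (hxy k))
    convert h1 using 1
    funext z
    cases z <;> rfl
  refine ⟨range fun p : Fin 3 × Fin n => φ p.1 p.2, fun {κ} f => ess (G f), Set.finite_range _,
    ?_, ?_⟩
  · have : Nonempty (Fin n) := ⟨⟨0, hn⟩⟩
    exact Set.range_nonempty _
  refine ⟨?_, ?_, ?_, ?_⟩
  · intro κ _ f f' _ _ hff'
    have h1 : G f = G f' := by
      funext x
      show ψ _ = ψ _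
      congr 1
      funext j
      exact hff' _ (fun k => ⟨(x k, j), rfl⟩)
    show ess (G f) = ess (G f')
    rw [h1]
  · intro κ κ' _ _ f π _
    exact ess_minor (G f) π
  · intro κ _ _ f hf
    have h1 := hG f hf (fun _ => 0) (fun _ => 1) (fun _ => by decide)
    obtain ⟨i, hi, _⟩ := exists_ess (G f) h1
    exact ⟨i, hi⟩
  · intro κ _ _ f hf
    rw [Set.ncard_le_one (Set.toFinite _)]
    intro i hi j hj
    exact k3_unary (hG f hf) hi hj

end Pool.Agent.Helper67.BEA
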