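import Pool.Agent.Helper67.BEA.Sel
import Pool.Graph.R_pool_sql_team_seeded_3997aac3.Q112.BP.Named

/-!
Essential variables; promise templates of bounded essential arity; essential arity in
model-complete cores.
-/

set_option autoImplicit false

namespace Pool.Agent.Helper67.BEA

open Set Function Pool.Agent.W994.AR Pool.Agent.Q112.BP

/-- The essential variables of `F`: the variables on which the function `F` depends. -/
def ess {κ D X : Type} (F : (κ → D) → X) : Set κ :=
  {i | ∃ x y : κ → D, (∀ j, j ≠ i → x j = y j) ∧ F x ≠ F y}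

theorem exists_ess {κ D X : Type} [Finite κ] (F : (κ → D) → X) {x y : κ → D} (h : F x ≠ F y) :
    ∃ i ∈ ess F, x i ≠ y i := by
  classical
  have := Fintype.ofFinite κ
  by_contra hno
  push Not at hno
  have key : ∀ s : Finset κ, F (fun j => if j ∈ s then y j else x j) = F x := by
    intro s
    induction s using Finset.induction_on with
    | empty => simp
    | insert a s ha ih =>
      rw [← ih]
      by_contra hne
      have h1 : a ∈ ess F := by
        refine ⟨_, _, ?_, hne⟩
        intro j hj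
        simp [hj]
      have h2 := hno a h1
      apply hne
      congr 1
      funext j
      by_cases hj : j = a
      · subst hj
        simp [ha, h2]
      · simp [hj]
  apply h
  rw [← key Finset.univ]
  simp

theorem ess_minor {κ κ' D X : Type} [Finite κ] (F : (κ → D) → X) (π : κ → κ') :
    ess (fun y : κ' → D => F (y ∘ π)) ⊆ π '' ess F := by
  rintro j ⟨x, y, hxy, hne⟩
  obtain ⟨i, hi, hi'⟩ := exists_ess F hne
  refine ⟨i, hi, ?_⟩
  by_contra hij
  exact hi' (hxy _ hij)

theorem ess_equiv {κ κ' D X : Type} [Finite κ] [Finite κ'] (F : (κ → D) → X) (e : κ ≃ κ') :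
    (ess F).ncard ≤ (ess (fun y : κ' → D => F (y ∘ e))).ncard := by
  have h1 : ess F ⊆ e.symm '' ess (fun y : κ' → D => F (y ∘ e)) := by
    have h2 := ess_minor (fun y : κ' → D => F (y ∘ e)) e.symm
    convert h2 using 2
    funext x
    congr 1
    funext k
    simp
  exact (Set.ncard_le_ncard h1 (Set.toFinite _)).trans (Set.ncard_image_le (Set.toFinite _))

/-- `h` is a homomorphism from `𝔸` to `𝕋`. -/
def Hom {τ A C : Type} {ar : τ → ℕ} (𝔸 : Str τ ar A) (𝕋 : Str τ ar C) (h : A → C) : Prop :=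
  ∀ (i : τ) (v : Fin (ar i) → A), v ∈ 𝔸 i → (fun j => h (v j)) ∈ 𝕋 i

/-- `F` is an `n`-ary polymorphism of the promise template `(𝔻, 𝕋)`: a homomorphism from the `n`-th
power of `𝔻` to `𝕋`. -/
def PromisePol {τ D C : Type} {ar : τ → ℕ} (𝔻 : Str τ ar D) (𝕋 : Str τ ar C) {κ : Type}
    (F : (κ → D) → C) : Prop :=
  ∀ (i : τ) (v : κ → Fin (ar i) → D), (∀ k, v k ∈ 𝔻 i) → (fun j => F (fun k => v k j)) ∈ 𝕋 i

/-- The promise template `(𝔻, 𝕋)` has essential arity at most `B`: no polymorphism depends on more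
than `B` variables. -/
def EssArityLE {τ D C : Type} {ar : τ → ℕ} (𝔻 : Str τ ar D) (𝕋 : Str τ ar C) (B : ℕ) : Prop :=
  ∀ (n : ℕ) (F : (Fin n → D) → C), PromisePol 𝔻 𝕋 F → (ess F).ncard ≤ B

/-- The relation `R` between elements of `A ^ J` is primitive positive definable in `𝔸`, as a
relation between elements of `A`. -/
def PPDefPow {A ι : Type} {ar : ι → ℕ} (𝔸 : Str ι ar A) {J : Type} {r : ℕ}
    (R : Set (Fin r → J → A)) : Prop :=
  PPDef 𝔸 {v : Fin r × J → A | (fun a j => v (a, j)) ∈ R}

variable {A ι : Type} {ar : ι → ℕ} {𝔸 : Str ι ar A}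

theorem PPDefPow.preserves {J : Type} {r : ℕ} {R : Set (Fin r → J → A)} (hR : PPDefPow 𝔸 R)
    {κ : Type} {f : (κ → A) → A} (hf : PolA 𝔸 f) (v : κ → Fin r → J → A) (hv : ∀ k, v k ∈ R) :
    (fun a j => f (fun k => v k a j)) ∈ R :=
  PolA.preserves hf hR (fun k (x : Fin r × J) => v k x.1 x.2) hv

/-- A template which pp-constructs a promise template of bounded essential arity without constant
homomorphism pp-constructs `K_3`. -/
theorem k3_of_promise [Finite ι] [Countable A] (hO : Oligo 𝔸) {J : Type} [Finite J]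
    {τ D C : Type} {arτ : τ → ℕ} [Finite D] [Nonempty D] {𝔻 : Str τ arτ D} {𝕋 : Str τ arτ C}
    {ℙ : Str τ arτ (J → A)} (hℙ : ∀ i, PPDefPow 𝔸 (ℙ i)) {e : D → J → A} (he : Hom 𝔻 ℙ e)
    {h : (J → A) → C} (hh : Hom ℙ 𝕋 h) (hconst : ∀ c : C, ¬ Hom 𝔻 𝕋 (fun _ => c))
    {B : ℕ} (hB : EssArityLE 𝔻 𝕋 B) : PPConstructsK3 𝔸 := by
  classical
  let G : ∀ {κ : Type}, ((κ → A) → A) → (κ → D) → C :=
    fun {κ} f x => h (fun j => f (fun k => e (x k) j))
  have hG : ∀ {κ : Type} (f : (κ → A) → A), PolA 𝔸 f → PromisePol 𝔻 𝕋 (G f) := by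
    intro κ f hf i v hv
    exact hh i _ ((hℙ i).preserves hf (fun k a j => e (v k a) j) (fun k => he i _ (hv k)))
  have hbd : ∀ {κ : Type} [Finite κ] (F : (κ → D) → C), PromisePol 𝔻 𝕋 F → (ess F).ncard ≤ B := by
    intro κ _ F hF
    obtain ⟨n, ⟨ε⟩⟩ := Finite.exists_equiv_fin κ
    exact (ess_equiv F ε).trans (hB n _ (fun i v hv => hF i (fun k => v (ε k)) (fun k => hv _)))
  have hJ : Nonempty J := by
    by_contra hJ
    rw [not_nonempty_iff] at hJ
    apply hconst (h (fun j => (hJ.false j).elim))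
    intro i v hv
    have h1 := hh i _ (he i v hv)
    convert h1 using 1
    funext a
    show h _ = h _
    congr 1
    funext j
    exact (hJ.false j).elim
  refine Selection.k3 (S := range fun p : D × J => e p.1 p.2) (B := B)
    (E := fun {κ} f => ess (G f)) hO (Set.finite_range _) (Set.range_nonempty _) ?_
  refine ⟨?_, ?_, ?_, ?_⟩
  · intro κ _ f f' _ _ hff'
    have h1 : G f = G f' := by
      funext x
      show h _ = h _
      congr 1
      funext j
      exact hff' _ (fun k => ⟨(x k, j), rfl⟩)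
    show ess (G f) = ess (G f')
    rw [h1]
  · intro κ κ' _ _ f π _
    exact ess_minor (G f) π
  · intro κ _ _ f hf
    have hnc : ∃ d d' : D, G f (fun _ => d) ≠ G f (fun _ => d') := by
      by_contra hno
      push Not at hno
      obtain ⟨d₀⟩ := (inferInstance : Nonempty D)
      apply hconst (G f (fun _ => d₀))
      intro i v hv
      have h1 := hG f hf i (fun _ => v) (fun _ => hv)
      convert h1 using 1
      funext a
      exact hno _ _
    obtain ⟨d, d', hne⟩ := hnc
    obtain ⟨i, hi, _⟩ := exists_ess (G f) hne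
    exact ⟨i, hi⟩
  · intro κ _ _ f hf
    exact hbd _ (hG f hf)

/-- The value of the polymorphism `f` at the tuple of `J`-tuples with entries `b` (where `x` is
true) and `a` (where `x` is false). -/
def onPair {κ J : Type} (f : (κ → A) → A) (a b : J → A) (x : κ → Bool) : J → A :=
  fun j => f (fun k => if x k then b j else a j)

theorem onPair_false {κ J : Type} (f : (κ → A) → A) (a b : J → A) :
    onPair f a b (fun _ => false) = fun j => f (fun _ => a j) := by
  funext j
  simp [onPair]

theorem onPair_true {κ J : Type} (f : (κ → A) → A) (a b : J → A) :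
    onPair f a b (fun _ => true) = fun j => f (fun _ => b j) := by
  funext j
  simp [onPair]

/-- inessential variables can be identified with essential ones -/
theorem all_essential {κ J X : Type} [Finite κ] {f : (κ → A) → A} (hf : PolA 𝔸 f) {a b : J → A}
    {c : (J → A) → X} (hne : (ess (fun x => c (onPair f a b x))).Nonempty) :
    ∃ g : (Fin (ess (fun x => c (onPair f a b x))).ncard → A) → A, PolA 𝔸 g ∧
      (∀ z, g (fun _ => z) = f (fun _ => z)) ∧ ess (fun x => c (onPair g a b x)) = univ := by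
  classical
  set F : (κ → Bool) → X := fun x => c (onPair f a b x) with hF
  obtain ⟨e₀, he₀⟩ := hne
  have hcard : Nat.card (ess F) = (ess F).ncard := rfl
  let ε : ess F ≃ Fin (ess F).ncard := Finite.equivFinOfCardEq hcard
  let π : κ → Fin (ess F).ncard := fun k => if hk : k ∈ ess F then ε ⟨k, hk⟩ else ε ⟨e₀, he₀⟩
  have hagree : ∀ x y : κ → Bool, (∀ k ∈ ess F, x k = y k) → F x = F y := by
    intro x y hxy
    by_contra hne
    obtain ⟨i, hi, hi'⟩ := exists_ess F hne
    exact hi' (hxy i hi)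
  refine ⟨fun y => f (y ∘ π), PolA.minor hf π, fun z => rfl, ?_⟩
  rw [Set.eq_univ_iff_forall]
  intro i
  obtain ⟨x, y, hxy, hne⟩ := (ε.symm i).2
  have hval : ∀ u : κ → Bool, c (onPair (fun y : Fin (ess F).ncard → A => f (y ∘ π)) a b
      (fun i => u (ε.symm i).1)) = F u := by
    intro u
    have h1 : onPair (fun y : Fin (ess F).ncard → A => f (y ∘ π)) a b
        (fun i => u (ε.symm i).1) = onPair f a b (fun k => u (ε.symm (π k)).1) := rfl
    rw [h1]
    apply hagree
    intro k hk
    simp only [π, dif_pos hk, Equiv.symm_apply_apply]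
  refine ⟨fun i => x (ε.symm i).1, fun i => y (ε.symm i).1, ?_, ?_⟩
  · intro j hj
    apply hxy
    intro h1
    exact hj (ε.symm.injective (Subtype.ext h1))
  · simp only [hval]
    exact hne

/-- In a model-complete core which does not pp-construct `K_3`, the essential arity of the
polymorphisms on any two tuples is unbounded. -/
theorem unbounded [Finite ι] [Countable A] (hO : Oligo 𝔸) (hcore : MCCore 𝔸)
    (hno : ¬ PPConstructsK3 𝔸) {J X : Type} [Finite J] (a b : J → A) (c : (J → A) → X)
    (hc : c a ≠ c b) (N : ℕ) :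
    ∃ (n : ℕ) (f : (Fin n → A) → A), N ≤ n ∧ PolA 𝔸 f ∧ (∀ j, f (fun _ => a j) = a j) ∧
      (∀ j, f (fun _ => b j) = b j) ∧ ess (fun x => c (onPair f a b x)) = univ := by
  classical
  by_contra hcon
  push Not at hcon
  -- all polymorphisms which fix `a` and `b` depend on few variables
  have hne : ∀ {κ : Type} [Finite κ] (f : (κ → A) → A), (∀ j, f (fun _ => a j) = a j) →
      (∀ j, f (fun _ => b j) = b j) → (ess (fun x => c (onPair f a b x))).Nonempty := by
    intro κ _ f h1 h2
    have h3 : c (onPair f a b (fun _ => false)) ≠ c (onPair f a b (fun _ => true)) := by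
      rw [onPair_false, onPair_true, funext h1, funext h2]
      exact hc
    obtain ⟨i, hi, _⟩ := exists_ess (fun x => c (onPair f a b x)) h3
    exact ⟨i, hi⟩
  have hbd : ∀ {κ : Type} [Finite κ] (f : (κ → A) → A), PolA 𝔸 f →
      (∀ j, f (fun _ => a j) = a j) → (∀ j, f (fun _ => b j) = b j) →
      (ess (fun x => c (onPair f a b x))).ncard ≤ N := by
    intro κ _ f hf h1 h2
    by_contra hlt
    rw [not_le] at hlt
    obtain ⟨g, hg, hgf, hgu⟩ := all_essential hf (hne f h1 h2)
    exact hcon _ g hlt.le hg (fun j => by rw [hgf, h1]) (fun j => by rw [hgf, h2]) hgu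
  -- normalisation by automorphisms
  let α : (J → A) → (J → A) → Equiv.Perm A := fun p q =>
    if h : ∃ g ∈ autGroup 𝔸, (∀ j, g (a j) = p j) ∧ ∀ j, g (b j) = q j then h.choose else 1
  have hα : ∀ {κ : Type} (f : (κ → A) → A), PolA 𝔸 f →
      α (fun j => f (fun _ => a j)) (fun j => f (fun _ => b j)) ∈ autGroup 𝔸 ∧
      (∀ j, α (fun j => f (fun _ => a j)) (fun j => f (fun _ => b j)) (a j) = f (fun _ => a j)) ∧
      ∀ j, α (fun j => f (fun _ => a j)) (fun j => f (fun _ => b j)) (b j) = f (fun _ => b j) := by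
    intro κ f hf
    have h : ∃ g ∈ autGroup 𝔸, (∀ j, g (a j) = f (fun _ => a j)) ∧
        ∀ j, g (b j) = f (fun _ => b j) := by
      obtain ⟨k, ⟨ε⟩⟩ := Finite.exists_equiv_fin (J ⊕ J)
      obtain ⟨g, hg, hgv⟩ := hcore (fun x => f (fun _ => x)) (diag_end hf) k
        (fun i => Sum.elim a b (ε.symm i))
      refine ⟨g, hg, fun j => ?_, fun j => ?_⟩
      · have := hgv (ε (Sum.inl j))
        simpa using this
      · have := hgv (ε (Sum.inr j))
        simpa using this
    have h1 : α (fun j => f (fun _ => a j)) (fun j => f (fun _ => b j)) = h.choose := dif_pos h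
    rw [h1]
    exact ⟨h.choose_spec.1, h.choose_spec.2.1, h.choose_spec.2.2⟩
  let nrm : ∀ {κ : Type}, ((κ → A) → A) → (κ → A) → A := fun {κ} f x =>
    (α (fun j => f (fun _ => a j)) (fun j => f (fun _ => b j)))⁻¹ (f x)
  have hnrm : ∀ {κ : Type} (f : (κ → A) → A), PolA 𝔸 f → PolA 𝔸 (nrm f) ∧
      (∀ j, nrm f (fun _ => a j) = a j) ∧ ∀ j, nrm f (fun _ => b j) = b j := by
    intro κ f hf
    obtain ⟨h1, h2, h3⟩ := hα f hf
    have h4 : IsEnd 𝔸 (fun x => (α (fun j => f (fun _ => a j)) (fun j => f (fun _ => b j)))⁻¹ x) :=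
      fun i v hv => ((autGroup 𝔸).inv_mem h1 i v).1 hv
    refine ⟨h4.post hf, fun j => ?_, fun j => ?_⟩
    · show (α _ _)⁻¹ (f _) = _
      rw [Equiv.Perm.inv_eq_iff_eq]
      exact (h2 j).symm
    · show (α _ _)⁻¹ (f _) = _
      rw [Equiv.Perm.inv_eq_iff_eq]
      exact (h3 j).symm
  apply hno
  have hJ : Nonempty J := by
    by_contra hJ
    rw [not_nonempty_iff] at hJ
    apply hc
    congr 1
    funext j
    exact (hJ.false j).elim
  refine Selection.k3 (S := range a ∪ range b) (B := N)
    (E := fun {κ} f => ess (fun x => c (onPair (nrm f) a b x))) hO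
    ((Set.finite_range _).union (Set.finite_range _)) ((Set.range_nonempty _).inl) ?_
  refine ⟨?_, ?_, ?_, ?_⟩
  · intro κ _ f f' _ _ hff'
    have h1 : (fun j => f (fun _ => a j)) = fun j => f' (fun _ => a j) :=
      funext fun j => hff' _ (fun _ => Or.inl ⟨j, rfl⟩)
    have h2 : (fun j => f (fun _ => b j)) = fun j => f' (fun _ => b j) :=
      funext fun j => hff' _ (fun _ => Or.inr ⟨j, rfl⟩)
    have h3 : (fun x => c (onPair (nrm f) a b x)) = fun x => c (onPair (nrm f') a b x) := by
      funext x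
      congr 1
      funext j
      show (α _ _)⁻¹ (f _) = (α _ _)⁻¹ (f' _)
      rw [h1, h2, hff']
      intro k
      by_cases hx : x k
      · simp [hx]
      · simp [hx]
    show ess (fun x => c (onPair (nrm f) a b x)) = ess (fun x => c (onPair (nrm f') a b x))
    rw [h3]
  · intro κ κ' _ _ f π _
    exact ess_minor (fun x => c (onPair (nrm f) a b x)) π
  · intro κ _ _ f hf
    obtain ⟨_, h2, h3⟩ := hnrm f hf
    exact hne _ h2 h3
  · intro κ _ _ f hf
    obtain ⟨h1, h2, h3⟩ := hnrm f hf
    exact hbd _ h1 h2 h3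

end Pool.Agent.Helper67.BEA
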