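import Pool.Agent.Helper67.BEA.Ess

/-!
Promise templates between `1-in-r` and linear equations with finitely many values.
-/

set_option autoImplicit false

namespace Pool.Agent.Helper67.BEA

open Set Function Pool.Agent.W994.AR Pool.Agent.Q112.BP

/-- The Boolean structure `1-in-r`: the `r`-tuples with exactly one entry `true`. -/
def oneIn (r : ℕ) : Str Unit (fun _ => r) Bool := fun _ => {v | ∃! a, v a = true}

/-- The equation `x_1 + ... + x_r = t` for values in `K`. -/
def sumEq {G : Type} [AddCommGroup G] (r : ℕ) (t : G) (K : Set G) : Str Unit (fun _ => r) G :=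
  fun _ => {w | (∑ a, w a = t) ∧ ∀ a, w a ∈ K}

section

variable {G : Type} [AddCommGroup G] {r n : ℕ} {t : G} {K : Set G}

/-- the value of `F` on the indicator function of `s` -/
def vl (F : (Fin n → Bool) → G) (s : Finset (Fin n)) : G := F (fun k => decide (k ∈ s))

theorem vl_parts {F : (Fin n → Bool) → G} (hF : PromisePol (oneIn r) (sumEq r t K) F)
    (cls : Fin n → Fin r) : (∑ a, vl F (Finset.univ.filter fun k => cls k = a) = t) ∧
      ∀ a, vl F (Finset.univ.filter fun k => cls k = a) ∈ K := by
  have h := hF () (fun k a => decide (cls k = a)) (fun k => ⟨cls k, by simp, by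
    intro b hb
    simpa using (of_decide_eq_true hb).symm⟩)
  have h1 : (fun a => F (fun k => decide (cls k = a))) =
      fun a => vl F (Finset.univ.filter fun k => cls k = a) := by
    funext a
    simp [vl]
  rw [h1] at h
  exact h

theorem vl_union (hr : 3 ≤ r) {F : (Fin n → Bool) → G}
    (hF : PromisePol (oneIn r) (sumEq r t K) F) {s u : Finset (Fin n)} (hsu : Disjoint s u) :
    vl F (s ∪ u) + vl F ∅ = vl F s + vl F u := by
  classical
  let a₀ : Fin r := ⟨0, by omega⟩
  let a₁ : Fin r := ⟨1, by omega⟩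
  let a₂ : Fin r := ⟨2, by omega⟩
  have h01 : a₀ ≠ a₁ := by simp [a₀, a₁]
  have h02 : a₀ ≠ a₂ := by simp [a₀, a₂]
  have h12 : a₁ ≠ a₂ := by simp [a₁, a₂]
  let c : Fin n → Fin r := fun k => if k ∈ s then a₀ else if k ∈ u then a₁ else a₂
  let c' : Fin n → Fin r := fun k => if k ∈ s then a₀ else if k ∈ u then a₀ else a₂
  have h1 := (vl_parts hF c).1
  have h2 := (vl_parts hF c').1
  have hf0 : Finset.univ.filter (fun k => c k = a₀) = s := by
    ext k
    simp only [Finset.mem_filter, Finset.mem_univ, true_and, c]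
    by_cases h1 : k ∈ s
    · simp [h1]
    · by_cases h2 : k ∈ u
      · simp [h1, h2, h01.symm]
      · simp [h1, h2, h02.symm]
  have hf1 : Finset.univ.filter (fun k => c k = a₁) = u := by
    ext k
    simp only [Finset.mem_filter, Finset.mem_univ, true_and, c]
    by_cases h1 : k ∈ s
    · have h3 : k ∉ u := Finset.disjoint_left.1 hsu h1
      simp [h1, h3, h01]
    · by_cases h2 : k ∈ u
      · simp [h1, h2]
      · simp [h1, h2, h12.symm]
  have hf0' : Finset.univ.filter (fun k => c' k = a₀) = s ∪ u := by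
    ext k
    simp only [Finset.mem_filter, Finset.mem_univ, true_and, c', Finset.mem_union]
    by_cases h1 : k ∈ s
    · simp [h1]
    · by_cases h2 : k ∈ u
      · simp [h1, h2]
      · simp [h1, h2, h02.symm]
  have hf1' : Finset.univ.filter (fun k => c' k = a₁) = ∅ := by
    ext k
    simp only [Finset.mem_filter, Finset.mem_univ, true_and, c', Finset.notMem_empty, iff_false]
    by_cases h1 : k ∈ s
    · simp [h1, h01]
    · by_cases h2 : k ∈ u
      · simp [h1, h2, h01]
      · simp [h1, h2, h12.symm]
  have hrest : ∀ a, a ≠ a₀ ∧ a ≠ a₁ → vl F (Finset.univ.filter fun k => c' k = a) -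
      vl F (Finset.univ.filter fun k => c k = a) = 0 := by
    rintro a ⟨ha0, ha1⟩
    have : Finset.univ.filter (fun k => c' k = a) = Finset.univ.filter (fun k => c k = a) := by
      ext k
      simp only [Finset.mem_filter, Finset.mem_univ, true_and, c, c']
      by_cases h1 : k ∈ s
      · simp [h1]
      · by_cases h2 : k ∈ u
        · simp [h1, h2, ha0.symm, ha1.symm]
        · simp [h1, h2]
    rw [this, sub_self]
  have h3 : ∑ a, (vl F (Finset.univ.filter fun k => c' k = a) -
      vl F (Finset.univ.filter fun k => c k = a)) = 0 := by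
    rw [Finset.sum_sub_distrib, h1, h2, sub_self]
  rw [Fintype.sum_eq_add a₀ a₁ h01 hrest, hf0, hf1, hf0', hf1'] at h3
  have h4 : vl F (s ∪ u) + vl F ∅ - (vl F s + vl F u) = 0 := by
    rw [← h3]
    abel
  exact sub_eq_zero.1 h4

theorem vl_mem (hr : 3 ≤ r) {F : (Fin n → Bool) → G}
    (hF : PromisePol (oneIn r) (sumEq r t K) F) (s : Finset (Fin n)) : vl F s ∈ K := by
  classical
  let a₀ : Fin r := ⟨0, by omega⟩
  let a₁ : Fin r := ⟨1, by omega⟩
  have h01 : a₁ ≠ a₀ := by simp [a₀, a₁]
  have h := (vl_parts hF (fun k => if k ∈ s then a₀ else a₁)).2 a₀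
  have h1 : Finset.univ.filter (fun k => (if k ∈ s then a₀ else a₁) = a₀) = s := by
    ext k
    simp only [Finset.mem_filter, Finset.mem_univ, true_and]
    by_cases h2 : k ∈ s
    · simp [h2]
    · simp [h2, h01]
  rwa [h1] at h

/-- the increment in the `i`-th variable -/
def inc (F : (Fin n → Bool) → G) (i : Fin n) : G := vl F {i} - vl F ∅

theorem vl_insert (hr : 3 ≤ r) {F : (Fin n → Bool) → G}
    (hF : PromisePol (oneIn r) (sumEq r t K) F) {s : Finset (Fin n)} {i : Fin n} (hi : i ∉ s) :
    vl F (insert i s) = vl F s + inc F i := by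
  have h := vl_union hr hF (s := {i}) (u := s) (by simpa using hi)
  have h1 : ({i} : Finset (Fin n)) ∪ s = insert i s := by
    ext k
    simp
  rw [h1] at h
  rw [inc]
  have h2 : vl F (insert i s) = vl F {i} + vl F s - vl F ∅ := eq_sub_of_add_eq h
  rw [h2]
  abel

theorem vl_sum (hr : 3 ≤ r) {F : (Fin n → Bool) → G}
    (hF : PromisePol (oneIn r) (sumEq r t K) F) (s : Finset (Fin n)) :
    vl F s = vl F ∅ + ∑ i ∈ s, inc F i := by
  classical
  induction s using Finset.induction_on with
  | empty => simp
  | insert i s hi ih =>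
    rw [vl_insert hr hF hi, ih, Finset.sum_insert hi]
    abel

theorem inc_ne_of_ess (hr : 3 ≤ r) {F : (Fin n → Bool) → G}
    (hF : PromisePol (oneIn r) (sumEq r t K) F) {i : Fin n} (hi : i ∈ ess F) : inc F i ≠ 0 := by
  classical
  intro h0
  obtain ⟨x, y, hxy, hne⟩ := hi
  have hx : ∀ z : Fin n → Bool, F z = vl F ((Finset.univ.filter fun k => z k = true).erase i) := by
    intro z
    have h1 : F z = vl F (Finset.univ.filter fun k => z k = true) := by
      simp [vl]
    by_cases hz : z i = true
    · have h2 : Finset.univ.filter (fun k => z k = true) =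
          insert i ((Finset.univ.filter fun k => z k = true).erase i) := by
        rw [Finset.insert_erase]
        simpa using hz
      rw [h1]
      conv_lhs => rw [h2]
      rw [vl_insert hr hF (Finset.notMem_erase _ _), h0, add_zero]
    · rw [h1, Finset.erase_eq_of_notMem]
      simpa using hz
  apply hne
  rw [hx x, hx y]
  congr 1
  ext k
  simp only [Finset.mem_erase, Finset.mem_filter, Finset.mem_univ, true_and]
  constructor
  · rintro ⟨h1, h2⟩
    exact ⟨h1, by rw [← hxy k h1]; exact h2⟩
  · rintro ⟨h1, h2⟩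
    exact ⟨h1, by rw [hxy k h1]; exact h2⟩

end

section ordered

variable {G : Type} [AddCommGroup G] [LinearOrder G] [IsOrderedAddMonoid G] {r n : ℕ} {t : G}
  {K : Set G}

theorem card_pos (hr : 3 ≤ r) (hK : K.Finite) {F : (Fin n → Bool) → G}
    (hF : PromisePol (oneIn r) (sumEq r t K) F) (P : Finset (Fin n))
    (hP : (∀ i ∈ P, 0 < inc F i) ∨ ∀ i ∈ P, inc F i < 0) : P.card ≤ K.ncard := by
  classical
  let φ : Fin n → G := fun i => vl F (P.filter (· ≤ i))
  have hmaps : ∀ i ∈ P, φ i ∈ hK.toFinset := fun i _ => by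
    simpa using vl_mem hr hF _
  have hlt : ∀ i ∈ P, ∀ j ∈ P, i < j → φ i ≠ φ j := by
    intro i hi j hj hij heq
    have hsub : P.filter (· ≤ i) ⊆ P.filter (· ≤ j) := by
      intro k hk
      rw [Finset.mem_filter] at hk ⊢
      exact ⟨hk.1, hk.2.trans hij.le⟩
    have h1 : φ j = φ i + ∑ k ∈ (P.filter (· ≤ j)) \ (P.filter (· ≤ i)), inc F k := by
      simp only [φ]
      rw [vl_sum hr hF, vl_sum hr hF (P.filter (· ≤ i)), ← Finset.sum_sdiff hsub]
      abel
    have h2 : ∑ k ∈ (P.filter (· ≤ j)) \ (P.filter (· ≤ i)), inc F k = 0 := by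
      rw [← heq] at h1
      simpa using h1.symm
    have hjm : j ∈ (P.filter (· ≤ j)) \ (P.filter (· ≤ i)) := by
      simp [hj, hij]
    rcases hP with hP | hP
    · have h3 := Finset.sum_pos (s := (P.filter (· ≤ j)) \ (P.filter (· ≤ i))) (f := inc F)
        (fun k hk => hP k (Finset.mem_filter.1 (Finset.mem_sdiff.1 hk).1).1) ⟨j, hjm⟩
      exact h3.ne' h2
    · have h3 := Finset.sum_neg (s := (P.filter (· ≤ j)) \ (P.filter (· ≤ i))) (f := inc F)
        (fun k hk => hP k (Finset.mem_filter.1 (Finset.mem_sdiff.1 hk).1).1) ⟨j, hjm⟩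
      exact h3.ne h2
  have hinj : Set.InjOn φ P := by
    intro i hi j hj hij
    rcases lt_trichotomy i j with h | h | h
    · exact absurd hij (hlt i hi j hj h)
    · exact h
    · exact absurd hij.symm (hlt j hj i hi h)
  have := Finset.card_le_card_of_injOn φ hmaps hinj
  rwa [Set.ncard_eq_toFinset_card K hK]

/-- The promise template `(1-in-r, x_1 + ... + x_r = t)` with values in a finite set `K` has bounded
essential arity. -/
theorem ess_oneIn (hr : 3 ≤ r) (hK : K.Finite) (t : G) :
    EssArityLE (oneIn r) (sumEq r t K) (K.ncard + K.ncard) := by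
  classical
  intro n F hF
  have h1 : ess F ⊆ ((Finset.univ.filter fun i => 0 < inc F i) : Finset (Fin n)) ∪
      ((Finset.univ.filter fun i => inc F i < 0) : Finset (Fin n)) := by
    intro i hi
    have := inc_ne_of_ess hr hF hi
    rcases lt_or_gt_of_ne this with h | h
    · right
      simpa using h
    · left
      simpa using h
  refine (Set.ncard_le_ncard h1 (Set.toFinite _)).trans ?_
  refine (Set.ncard_union_le _ _).trans ?_
  rw [Set.ncard_coe_finset, Set.ncard_coe_finset]
  refine add_le_add (card_pos hr hK hF _ (Or.inl ?_)) (card_pos hr hK hF _ (Or.inr ?_))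
  · intro i hi
    simpa using hi
  · intro i hi
    simpa using hi

variable {A ι : Type} {ar : ι → ℕ} {𝔸 : Str ι ar A}

theorem k3_of_oneIn [Finite ι] [Countable A] (hO : Oligo 𝔸) {J : Type} [Finite J] (hr : 3 ≤ r)
    {R : Set (Fin r → J → A)} (hR : PPDefPow 𝔸 R) {a b : J → A}
    (hab : ∀ i : Fin r, (fun k => if k = i then b else a) ∈ R) {h : (J → A) → G}
    (hfin : (range h).Finite) (hsum : ∀ v ∈ R, ∑ k, h (v k) = t) (ht : ∀ g : G, r • g ≠ t) :
    PPConstructsK3 𝔸 := by
  classical
  refine k3_of_promise (𝔻 := oneIn r) (𝕋 := sumEq r t (range h)) (ℙ := fun _ => R) hO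
    (fun _ => hR) (e := fun x => if x then b else a) ?_ (h := h) ?_ ?_
    (ess_oneIn hr hfin t)
  · rintro _ v ⟨i, hi, hu⟩
    have h1 : (fun j => (fun x => if x then b else a) (v j)) =
        fun k => if k = i then b else a := by
      funext k
      by_cases hk : k = i
      · subst hk
        simp [hi]
      · have h2 : v k = false := by
          by_contra h3
          exact hk (hu k (by simpa using h3))
        simp [h2, hk]
    show (fun j => (fun x => if x then b else a) (v j)) ∈ R
    rw [h1]
    exact hab i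
  · intro _ v hv
    exact ⟨hsum v hv, fun a => ⟨v a, rfl⟩⟩
  · intro g hg
    let a₀ : Fin r := ⟨0, by omega⟩
    have h1 := (hg () (fun k => decide (k = a₀)) ⟨a₀, by simp, by
      intro y hy
      simpa using hy⟩).1
    simp only [Finset.sum_const, Finset.card_univ, Fintype.card_fin] at h1
    exact ht g h1

end ordered

end Pool.Agent.Helper67.BEA
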