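import Pool.Graph.R_pool_sql_team_seeded_3997aac3.Q112.BP.Comp

/-!
A bounded, local, contravariant selection of sets of coordinates for the polymorphisms of an
omega-categorical structure gives a pp-construction of `K_3`.
-/

set_option autoImplicit false

namespace Pool.Agent.Helper67.BEA

open Set Function Pool.Agent.W994.AR Pool.Agent.Q112.BP

variable {A ι : Type} {ar : ι → ℕ}

/-- A bounded selection for the polymorphisms of `𝔸`, local on the finite set `S`: every
polymorphism `f` (with finitely many variables) gets a nonempty set `E f` of at most `B` of its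
variables, `E f` depends only on the values of `f` on the elements of `S`, and if variables are
identified by `π` then the selected variables of the minor are images of selected variables. -/
structure Selection (𝔸 : Str ι ar A) (S : Set A) (B : ℕ)
    (E : ∀ {κ : Type}, ((κ → A) → A) → Set κ) : Prop where
  loc : ∀ {κ : Type} [Finite κ] (f f' : (κ → A) → A), PolA 𝔸 f → PolA 𝔸 f' →
    (∀ x : κ → A, (∀ k, x k ∈ S) → f x = f' x) → E f = E f'
  minor : ∀ {κ κ' : Type} [Finite κ] [Finite κ'] (f : (κ → A) → A) (π : κ → κ'), PolA 𝔸 f →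
    E (fun y : κ' → A => f (y ∘ π)) ⊆ π '' E f
  ne : ∀ {κ : Type} [Finite κ] [Nonempty κ] (f : (κ → A) → A), PolA 𝔸 f → (E f).Nonempty
  bdd : ∀ {κ : Type} [Finite κ] [Nonempty κ] (f : (κ → A) → A), PolA 𝔸 f → (E f).ncard ≤ B

theorem PolA.minor {𝔸 : Str ι ar A} {κ κ' : Type} {f : (κ → A) → A} (hf : PolA 𝔸 f)
    (π : κ → κ') : PolA 𝔸 (fun y : κ' → A => f (y ∘ π)) :=
  fun i v hv => hf i (fun k => v (π k)) (fun _ => hv _)

/-- endomorphisms -/
def IsEnd (𝔸 : Str ι ar A) (e : A → A) : Prop :=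
  ∀ (i : ι) (v : Fin (ar i) → A), v ∈ 𝔸 i → (fun j => e (v j)) ∈ 𝔸 i

theorem IsEnd.comp {𝔸 : Str ι ar A} {e e' : A → A} (h : IsEnd 𝔸 e) (h' : IsEnd 𝔸 e') :
    IsEnd 𝔸 (fun x => e (e' x)) := fun i v hv => h i _ (h' i v hv)

theorem IsEnd.post {𝔸 : Str ι ar A} {e : A → A} (h : IsEnd 𝔸 e) {κ : Type} {f : (κ → A) → A}
    (hf : PolA 𝔸 f) : PolA 𝔸 (fun x => e (f x)) := fun i v hv => h i _ (hf i v hv)

theorem IsEnd.pre {𝔸 : Str ι ar A} {e : A → A} (h : IsEnd 𝔸 e) {κ : Type} {f : (κ → A) → A}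
    (hf : PolA 𝔸 f) : PolA 𝔸 (fun x => f (fun k => e (x k))) :=
  fun i v hv => hf i (fun k j => e (v k j)) (fun k => h i _ (hv k))

theorem diag_end {𝔸 : Str ι ar A} {κ : Type} {f : (κ → A) → A} (hf : PolA 𝔸 f) :
    IsEnd 𝔸 (fun x => f (fun _ => x)) := fun i v hv => hf i (fun _ => v) (fun _ => hv)

/-- the star composition -/
def star {κ κ' : Type} (m : (κ → A) → A) (g : (κ' → A) → A) : (κ × κ' → A) → A :=
  fun x => m (fun p => g (fun q => x (p, q)))

theorem star_pol {𝔸 : Str ι ar A} {κ κ' : Type} {m : (κ → A) → A} {g : (κ' → A) → A}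
    (hm : PolA 𝔸 m) (hg : PolA 𝔸 g) : PolA 𝔸 (star m g) :=
  fun i v hv => hm i _ (fun p => hg i (fun q => v (p, q)) (fun _ => hv _))

variable {𝔸 : Str ι ar A} {S : Set A} {B : ℕ} {E : ∀ {κ : Type}, ((κ → A) → A) → Set κ}

/-- a selection can be precomposed with an endomorphism -/
theorem Selection.pre (h : Selection 𝔸 S B @E) {u : A → A} (hu : IsEnd 𝔸 u) :
    Selection 𝔸 (u '' S) B (fun {κ} (f : (κ → A) → A) => E (fun x => f (fun k => u (x k)))) where
  loc _ _ hf hf' hff' := h.loc _ _ (hu.pre hf) (hu.pre hf')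
    (fun _ hx => hff' _ (fun k => ⟨_, hx k, rfl⟩))
  minor f π hf := h.minor (fun x => f (fun k => u (x k))) π (hu.pre hf)
  ne _ hf := h.ne _ (hu.pre hf)
  bdd _ hf := h.bdd _ (hu.pre hf)

/-- after precomposition with an endomorphism, the largest number of selected variables is attained
also for the polymorphisms precomposed with any further endomorphism -/
theorem Selection.exists_tight (h : Selection 𝔸 S B @E) : ∃ (u : A → A) (n : ℕ), IsEnd 𝔸 u ∧
    (∀ (κ : Type) [Finite κ] [Nonempty κ] (m : (κ → A) → A), PolA 𝔸 m →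
      (E (fun x => m (fun k => u (x k)))).ncard ≤ n) ∧
    ∀ w : A → A, IsEnd 𝔸 w → ∃ (κ : Type) (_ : Finite κ) (_ : Nonempty κ) (m : (κ → A) → A),
      PolA 𝔸 m ∧ (E (fun x => m (fun k => w (u (x k))))).ncard = n := by
  classical
  let P : ℕ → Prop := fun n => ∃ u : A → A, IsEnd 𝔸 u ∧
    ∀ (κ : Type) [Finite κ] [Nonempty κ] (m : (κ → A) → A), PolA 𝔸 m →
      (E (fun x => m (fun k => u (x k)))).ncard ≤ n
  have hP : ∃ n, P n := ⟨B, id, fun i v hv => hv, fun κ _ _ m hm => h.bdd m hm⟩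
  obtain ⟨u, hu, hun⟩ := Nat.find_spec hP
  refine ⟨u, Nat.find hP, hu, hun, ?_⟩
  intro w hw
  by_contra hno
  push Not at hno
  rcases Nat.eq_zero_or_pos (Nat.find hP) with h0 | h0
  · have h1 : (E (fun x : Unit → A => u (x ()))).ncard ≤ Nat.find hP :=
      hun Unit (fun x => x ()) (fun i v hv => hv ())
    have h2 : (E (fun x : Unit → A => u (x ()))).Nonempty :=
      h.ne (fun x : Unit → A => u (x ())) (hu.post (fun i v hv => hv ()))
    rw [h0, Nat.le_zero, Set.ncard_eq_zero (Set.toFinite _)] at h1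
    rw [h1] at h2
    exact Set.not_nonempty_empty h2
  · apply Nat.find_min hP (m := Nat.find hP - 1) (by omega)
    refine ⟨fun x => w (u x), hw.comp hu, ?_⟩
    intro κ _ _ m hm
    have h1 := hno κ inferInstance inferInstance m hm
    have h2 := hun κ (fun x => m (fun k => w (x k))) (hw.pre hm)
    simp only at h1 h2 ⊢
    omega

/-- the selected variable -/
theorem Selection.select (h : Selection 𝔸 S B @E) : ∃ (S' : Set A)
    (Φ : ∀ (κ : Type) [Finite κ] [Nonempty κ] (g : (κ → A) → A), PolA 𝔸 g → κ),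
    (∃ u : A → A, S' = u '' S) ∧
    (∀ (κ κ' : Type) [Finite κ] [Nonempty κ] [Finite κ'] [Nonempty κ'] (g : (κ → A) → A)
      (π : κ → κ') (hg : PolA 𝔸 g) (hg' : PolA 𝔸 (fun y : κ' → A => g (y ∘ π))),
      Φ κ' _ hg' = π (Φ κ g hg)) ∧
    ∀ (κ : Type) [Finite κ] [Nonempty κ] (g g' : (κ → A) → A) (hg : PolA 𝔸 g)
      (hg' : PolA 𝔸 g'), (∀ x : κ → A, (∀ k, x k ∈ S') → g x = g' x) → Φ κ g hg = Φ κ g' hg' := by
  classical
  obtain ⟨u, n, hu, hle, heq⟩ := h.exists_tight
  let S' : Set A := u '' S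
  let E₀ : ∀ {κ : Type}, ((κ → A) → A) → Set κ := fun {κ} f => E (fun x => f (fun k => u (x k)))
  have hE₀ : Selection 𝔸 S' B @E₀ := h.pre hu
  -- the data for the restriction of an endomorphism to `S'`
  have hdata : ∀ d : S' → A, (∃ w, IsEnd 𝔸 w ∧ ∀ s : S', w s = d s) →
      ∃ (κ : Type) (_ : Finite κ) (_ : Nonempty κ) (m : (κ → A) → A) (p : κ), PolA 𝔸 m ∧
        ∀ w, IsEnd 𝔸 w → (∀ s : S', w s = d s) →
          (E₀ (fun x => m (fun k => w (x k)))).ncard = n ∧
            p ∈ E₀ (fun x => m (fun k => w (x k))) := by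
    rintro d ⟨w₀, hw₀, hd⟩
    obtain ⟨κ, hκ, hκ', m, hm, hmn⟩ := heq w₀ hw₀
    obtain ⟨p, hp⟩ := hE₀.ne (fun x => m (fun k => w₀ (x k))) (hw₀.pre hm)
    refine ⟨κ, hκ, hκ', m, p, hm, ?_⟩
    intro w hw hwd
    have h1 : E₀ (fun x => m (fun k => w (x k))) = E₀ (fun x => m (fun k => w₀ (x k))) := by
      refine hE₀.loc _ _ (hw.pre hm) (hw₀.pre hm) ?_
      intro x hx
      show m _ = m _
      congr 1
      funext k
      rw [hwd ⟨x k, hx k⟩, hd ⟨x k, hx k⟩]
    rw [h1]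
    exact ⟨hmn, hp⟩
  choose K hK hK' M p hM hMp using hdata
  have hexg : ∀ {κ : Type} (g : (κ → A) → A), PolA 𝔸 g →
      ∃ w, IsEnd 𝔸 w ∧ ∀ s : S', w s = (fun s : S' => g (fun _ => s)) s := by
    intro κ g hg
    exact ⟨fun x => g (fun _ => x), diag_end hg, fun s => rfl⟩
  -- uniqueness of the selected variable
  have key : ∀ (κ : Type) [Finite κ] [Nonempty κ] (g : (κ → A) → A) (hg : PolA 𝔸 g),
      ∃! q : κ, (p _ (hexg g hg), q) ∈ E₀ (star (M _ (hexg g hg)) g) := by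
    intro κ _ _ g hg
    have := hK _ (hexg g hg)
    have := hK' _ (hexg g hg)
    have hm := hM _ (hexg g hg)
    obtain ⟨h1, h2⟩ := hMp _ (hexg g hg) _ (diag_end hg) (fun s => rfl)
    have hst := star_pol hm hg
    have h3 : E₀ (fun x => M _ (hexg g hg) (fun k => (fun x => g (fun _ => x)) (x k))) ⊆
        Prod.fst '' E₀ (star (M _ (hexg g hg)) g) := hE₀.minor (star (M _ (hexg g hg)) g) Prod.fst hst
    have h4 : (E₀ (star (M _ (hexg g hg)) g)).ncard ≤ n := hle _ _ hst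
    have h5 : (Prod.fst '' E₀ (star (M _ (hexg g hg)) g)).ncard ≤
        (E₀ (star (M _ (hexg g hg)) g)).ncard := Set.ncard_image_le (Set.toFinite _)
    have h6 := Set.ncard_le_ncard h3 (Set.toFinite _)
    have h8 : (E₀ (fun x => M _ (hexg g hg) (fun k => (fun x => g (fun _ => x)) (x k)))).ncard = n :=
      h1
    have h7 : InjOn Prod.fst (E₀ (star (M _ (hexg g hg)) g)) := by
      apply Set.injOn_of_ncard_image_eq _ (Set.toFinite _)
      rw [h8] at h6
      omega
    obtain ⟨⟨p', q⟩, hq, hpq⟩ := h3 h2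
    simp only at hpq
    subst hpq
    refine ⟨q, hq, ?_⟩
    intro q' hq'
    have := h7 hq' hq rfl
    exact (Prod.ext_iff.1 this).2
  choose Ψ hΨ hΨ' using key
  refine ⟨S', fun κ h1 h2 g hg => @Ψ κ h1 h2 g hg, ⟨u, rfl⟩, ?_, ?_⟩
  · intro κ κ' _ _ _ _ g π hg hg'
    have := hK _ (hexg g hg)
    have := hK' _ (hexg g hg)
    have hm := hM _ (hexg g hg)
    have h1 : (p _ (hexg g hg), Ψ κ' _ hg') ∈
      E₀ (star (M _ (hexg g hg)) (fun y : κ' → A => g (y ∘ π))) := hΨ κ' _ hg'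
    have h3 : E₀ (star (M _ (hexg g hg)) (fun y : κ' → A => g (y ∘ π))) ⊆
        (Prod.map id π) '' E₀ (star (M _ (hexg g hg)) g) :=
      hE₀.minor (star (M _ (hexg g hg)) g) (Prod.map id π) (star_pol hm hg)
    obtain ⟨⟨p', q⟩, hq, hpq⟩ := h3 h1
    simp only [Prod.map_apply, id_eq, Prod.mk.injEq] at hpq
    obtain ⟨rfl, hq2⟩ := hpq
    have h4 := hΨ' κ g hg q hq
    show Ψ κ' _ hg' = π (Ψ κ g hg)
    rw [← hq2, h4]
  · intro κ _ _ g g' hg hg' hgg'
    have hd : (fun s : S' => g (fun _ => s)) = (fun s : S' => g' (fun _ => s)) := by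
      funext s
      exact hgg' _ (fun _ => s.2)
    have gen : ∀ (d d' : S' → A) (hdd : d = d') (e : ∃ w, IsEnd 𝔸 w ∧ ∀ s : S', w s = d s)
        (e' : ∃ w, IsEnd 𝔸 w ∧ ∀ s : S', w s = d' s) (q : κ),
        (p d e, q) ∈ E₀ (star (M d e) g) → (p d' e', q) ∈ E₀ (star (M d' e') g') := by
      intro d d' hdd e e' q hq
      subst hdd
      have := hK _ e
      have := hK' _ e
      have hm := hM _ e
      have h2 : E₀ (star (M d e) g) = E₀ (star (M d e) g') := by
        refine hE₀.loc _ _ (star_pol hm hg) (star_pol hm hg') ?_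
        intro x hx
        show M _ _ _ = M _ _ _
        congr 1
        funext k
        exact hgg' _ (fun _ => hx _)
      rwa [h2] at hq
    exact hΨ' κ g' hg' _ (gen _ _ hd (hexg g hg) (hexg g' hg') _ (hΨ κ g hg))

/-- A bounded local selection of variables gives a pp-construction of `K_3`. -/
theorem Selection.k3 [Finite ι] [Countable A] (hO : Oligo 𝔸) (hS : S.Finite) (hne : S.Nonempty)
    (h : Selection 𝔸 S B @E) : PPConstructsK3 𝔸 := by
  obtain ⟨S', Φ, ⟨u, rfl⟩, h1, h2⟩ := h.select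
  have hEd : Nonempty Ed := ⟨⟨(0, 1), by decide⟩⟩
  refine k3_of_select hO (u '' S) (hS.image u) (hne.image u) (fun f hf => Φ (Fin 3) f hf)
    (fun f hf => Φ Ed f hf) ?_ ?_ ?_
  · intro f hf hf'
    exact h1 Ed (Fin 3) f (fun e => e.1.1) hf hf'
  · intro f hf hf'
    exact h1 Ed (Fin 3) f (fun e => e.1.2) hf hf'
  · intro f f' hf hf' hff'
    exact h2 (Fin 3) f f' hf hf' hff'

end Pool.Agent.Helper67.BEA
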